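import Mathlib

set_option autoImplicit false

namespace Pool.Agent.Results.MP_832c97_co.QuadraticBound

section geometry

variable {V : Type*} (X Y : V → ℝ)

/-- Twice the signed area of the triangle `u w z`. -/
def cr (u w z : V) : ℝ := (X w - X u) * (Y z - Y u) - (Y w - Y u) * (X z - X u)

/-- `a < b` or `b < a`, according to the flag. -/
def dir (s : Bool) (a b : ℝ) : Prop := if s then a < b else b < a

/-- `a ≤ b` or `b ≤ a`, according to the flag. -/
def mon (s : Bool) (a b : ℝ) : Prop := if s then a ≤ b else b ≤ a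

lemma mon_refl (s : Bool) (a : ℝ) : mon s a a := by
  unfold mon; split <;> exact le_refl a

lemma mon_trans {s : Bool} {a b c : ℝ} (h1 : mon s a b) (h2 : mon s b c) : mon s a c := by
  unfold mon at *; split at h1 <;> simp_all <;> linarith

lemma mon_of_dir {s : Bool} {a b : ℝ} (h : dir s a b) : mon s a b := by
  unfold mon; unfold dir at h; split <;> simp_all <;> linarith

/-- The admissible consecutive triples (`p` oldest, `r` newest) of a path of type `(α, β)`. -/
def T (α β : Bool) (p q r : V) : Prop :=
  (X p < X q ∧ X r < X q ∧ 0 < cr X Y p q r ∧ dir α (X p) (X r)) ∨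
  (X q < X p ∧ X q < X r ∧ 0 < cr X Y q p r ∧ dir β (X p) (X r))

/-- The value at `t` of the affine function whose graph is the line through `p` and `q`. -/
noncomputable def E (p q : V) (t : ℝ) : ℝ := Y q + (Y q - Y p) / (X q - X p) * (t - X q)

lemma E_comm {p q : V} (h : X p ≠ X q) (t : ℝ) : E X Y p q t = E X Y q p t := by
  unfold E
  have h1 : X q - X p ≠ 0 := sub_ne_zero.2 h.symm
  have h2 : X p - X q ≠ 0 := sub_ne_zero.2 h
  field_simp
  ring

lemma E_self (p q : V) : E X Y p q (X q) = Y q := by
  unfold E; simp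

lemma T_ne {α β : Bool} {p q r : V} (h : T X Y α β p q r) :
    X p ≠ X q ∧ X q ≠ X r ∧ X p ≠ X r := by
  rcases h with ⟨h1, h2, -, h4⟩ | ⟨h1, h2, -, h4⟩
  · refine ⟨h1.ne, h2.ne', ?_⟩
    unfold dir at h4; split at h4
    · exact h4.ne
    · exact h4.ne'
  · refine ⟨h1.ne', h2.ne, ?_⟩
    unfold dir at h4; split at h4
    · exact h4.ne
    · exact h4.ne'

lemma T_mono {α β : Bool} {p q r : V} (h : T X Y α β p q r) :
    mon α (min (X p) (X q)) (min (X q) (X r)) ∧ mon β (max (X p) (X q)) (max (X q) (X r)) := by
  rcases h with ⟨h1, h2, -, h4⟩ | ⟨h1, h2, -, h4⟩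
  · rw [min_eq_left h1.le, min_eq_right h2.le, max_eq_right h1.le, max_eq_left h2.le]
    exact ⟨mon_of_dir h4, mon_refl _ _⟩
  · rw [min_eq_right h1.le, min_eq_left h2.le, max_eq_left h1.le, max_eq_right h2.le]
    exact ⟨mon_refl _ _, mon_of_dir h4⟩

lemma T_above {α β : Bool} {p q r : V} (h : T X Y α β p q r) (t : ℝ)
    (h1 : min (X p) (X q) ≤ t) (h1' : t ≤ max (X p) (X q)) :
    E X Y p q t ≤ E X Y q r t ∧ (t ≠ X q → E X Y p q t < E X Y q r t) := by
  have hne := T_ne X Y h
  rw [E_comm X Y hne.2.1 t]
  have key : (0 ≤ ((Y q - Y r) / (X q - X r) - (Y q - Y p) / (X q - X p)) * (t - X q)) ∧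
      (t ≠ X q → 0 < ((Y q - Y r) / (X q - X r) - (Y q - Y p) / (X q - X p)) * (t - X q)) := by
    rcases h with ⟨a1, a2, a3, -⟩ | ⟨a1, a2, a3, -⟩
    · have b1 : 0 < X q - X p := by linarith
      have b2 : 0 < X q - X r := by linarith
      have b3 : (Y q - Y r) / (X q - X r) - (Y q - Y p) / (X q - X p) < 0 := by
        rw [sub_neg, div_lt_div_iff₀ b2 b1]
        unfold cr at a3
        nlinarith
      have b4 : t ≤ X q := by rwa [max_eq_right a1.le] at h1'
      constructor
      · exact mul_nonneg_of_nonpos_of_nonpos b3.le (by linarith)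
      · intro hne'
        exact mul_pos_of_neg_of_neg b3 (by
          have := lt_of_le_of_ne b4 hne'
          linarith)
    · have b1 : 0 < X p - X q := by linarith
      have b2 : 0 < X r - X q := by linarith
      have b3 : 0 < (Y q - Y r) / (X q - X r) - (Y q - Y p) / (X q - X p) := by
        have e1 : (Y q - Y r) / (X q - X r) = (Y r - Y q) / (X r - X q) := by
          rw [← neg_sub (Y r), ← neg_sub (X r), neg_div_neg_eq]
        have e2 : (Y q - Y p) / (X q - X p) = (Y p - Y q) / (X p - X q) := by
          rw [← neg_sub (Y p), ← neg_sub (X p), neg_div_neg_eq]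
        rw [e1, e2, sub_pos, div_lt_div_iff₀ b1 b2]
        unfold cr at a3
        nlinarith
      have b4 : X q ≤ t := by rwa [min_eq_right a1.le] at h1
      constructor
      · exact mul_nonneg b3.le (by linarith)
      · intro hne'
        exact mul_pos b3 (by
          have := lt_of_le_of_ne b4 (Ne.symm hne')
          linarith)
  unfold E
  constructor
  · have := key.1
    nlinarith
  · intro hne'
    have := key.2 hne'
    nlinarith

variable {α β : Bool} {f : ℕ → V} {N : ℕ}

lemma path_mono (hT : ∀ i, i + 2 < N → T X Y α β (f (i + 2)) (f (i + 1)) (f i)) :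
    ∀ d i, i + d + 1 < N →
      mon α (min (X (f (i + d + 1))) (X (f (i + d)))) (min (X (f (i + 1))) (X (f i))) ∧
      mon β (max (X (f (i + d + 1))) (X (f (i + d)))) (max (X (f (i + 1))) (X (f i))) := by
  intro d
  induction d with
  | zero => intro i _; exact ⟨mon_refl _ _, mon_refl _ _⟩
  | succ d ih =>
    intro i hi
    have h1 := ih i (by omega)
    have h2 := T_mono X Y (hT (i + d) (by omega))
    exact ⟨mon_trans h2.1 h1.1, mon_trans h2.2 h1.2⟩

lemma path_above (hT : ∀ i, i + 2 < N → T X Y α β (f (i + 2)) (f (i + 1)) (f i)) :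
    ∀ d i, i + d + 1 < N → ∀ t : ℝ,
      min (X (f (i + 1))) (X (f i)) ≤ t → t ≤ max (X (f (i + 1))) (X (f i)) →
      min (X (f (i + d + 1))) (X (f (i + d))) ≤ t → t ≤ max (X (f (i + d + 1))) (X (f (i + d))) →
      E X Y (f (i + d + 1)) (f (i + d)) t ≤ E X Y (f (i + 1)) (f i) t ∧
      (2 ≤ d → E X Y (f (i + d + 1)) (f (i + d)) t < E X Y (f (i + 1)) (f i) t) := by
  intro d
  induction d with
  | zero => intro i _ t _ _ _ _; exact ⟨le_refl _, fun h => by omega⟩
  | succ d ih =>
    intro i hi t h1 h2 h3 h4
    have e1 : i + (d + 1) = (i + 1) + d := by ring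
    rw [e1] at h3 h4 hi ⊢
    -- `t` is in the projection of the edge number `i + 1`
    have m1 := path_mono X Y hT d (i + 1) hi
    have hTi := hT i (by omega)
    have m2 := T_mono X Y hTi
    have h5 : min (X (f (i + 2))) (X (f (i + 1))) ≤ t := by
      have a1 := m1.1
      have a2 := m2.1
      unfold mon at a1 a2
      cases α <;> simp only [Bool.false_eq_true, if_true, if_false] at a1 a2
      · exact le_trans a1 h3
      · exact le_trans a2 h1
    have h6 : t ≤ max (X (f (i + 2))) (X (f (i + 1))) := by
      have a1 := m1.2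
      have a2 := m2.2
      unfold mon at a1 a2
      cases β <;> simp only [Bool.false_eq_true, if_true, if_false] at a1 a2
      · exact le_trans h2 a2
      · exact le_trans h4 a1
    have r1 := ih (i + 1) hi t h5 h6 h3 h4
    have r2 := T_above X Y hTi t h5 h6
    refine ⟨le_trans r1.1 r2.1, fun hd => ?_⟩
    rcases Nat.lt_or_ge d 2 with hd' | hd'
    · -- `d = 1`
      have hd1 : d = 1 := by omega
      subst hd1
      by_cases ht : t = X (f (i + 1))
      · -- then strictness comes from the lower step
        have hTi' := hT (i + 1) (by omega)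
        have hne := T_ne X Y hTi'
        have ht' : t ≠ X (f (i + 1 + 1)) := by
          rw [ht]; exact hne.2.1.symm
        have r3 := T_above X Y hTi' t h3 h4
        exact lt_of_lt_of_le (r3.2 ht') r2.1
      · exact lt_of_le_of_lt r1.1 (r2.2 ht)
    · exact lt_of_lt_of_le (r1.2 hd') r2.1

end geometry

section paths

variable {V : Type*} (X Y : V → ℝ) (G : SimpleGraph V)

/-- Paths of type `(α, β)`, as lists of vertices with the newest vertex first. -/
inductive Zig (α β : Bool) : List V → Prop
  | base (p q : V) (h : G.Adj p q) : Zig α β [q, p]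
  | step (p q r : V) (t : List V) (h : Zig α β (q :: p :: t)) (h1 : G.Adj q r)
      (h2 : T X Y α β p q r) : Zig α β (r :: q :: p :: t)

variable {X Y G} {α β : Bool}

lemma Zig.adj {L : List V} (h : Zig X Y G α β L) (d : V) :
    ∀ i, i + 1 < L.length → G.Adj (L.getD i d) (L.getD (i + 1) d) := by
  induction h with
  | base p q h =>
    intro i hi
    simp only [List.length_cons, List.length_nil] at hi
    have : i = 0 := by omega
    subst this
    simpa using h.symm
  | step p q r t h h1 h2 ih =>
    intro i hi
    rcases i with _ | i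
    · simpa using h1.symm
    · simpa using ih i (by simpa using hi)

lemma Zig.T {L : List V} (h : Zig X Y G α β L) (d : V) :
    ∀ i, i + 2 < L.length → QuadraticBound.T X Y α β (L.getD (i + 2) d) (L.getD (i + 1) d)
      (L.getD i d) := by
  induction h with
  | base p q h =>
    intro i hi
    simp only [List.length_cons, List.length_nil] at hi
    omega
  | step p q r t h h1 h2 ih =>
    intro i hi
    rcases i with _ | i
    · simpa using h2
    · simpa using ih i (by simpa using hi)

/-- There is a path of type `(α, β)` with `m` edges whose last edge goes from `p` to `q`. -/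
def Reach (X Y : V → ℝ) (G : SimpleGraph V) (α β : Bool) (m : ℕ) (p q : V) : Prop :=
  ∃ t, Zig X Y G α β (q :: p :: t) ∧ t.length + 1 = m

open Classical in
/-- The largest number of edges of a path of type `(α, β)` whose last edge goes from `p` to `q`
(truncated at `K`). -/
noncomputable def M (X Y : V → ℝ) (G : SimpleGraph V) (K : ℕ) (α β : Bool) (p q : V) : ℕ :=
  Nat.findGreatest (fun m => Reach X Y G α β m p q) K

lemma le_M {K : ℕ} (hK : ∀ α β L, Zig X Y G α β L → L.length ≤ K + 1) {m : ℕ} {p q : V}
    (h : Reach X Y G α β m p q) : m ≤ M X Y G K α β p q := by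
  classical
  unfold M
  refine Nat.le_findGreatest ?_ h
  obtain ⟨t, ht, rfl⟩ := h
  have := hK α β _ ht
  simp only [List.length_cons] at this
  omega

lemma reach_M {K : ℕ} (hK1 : 1 ≤ K) {p q : V} (h : G.Adj p q) :
    Reach X Y G α β (M X Y G K α β p q) p q ∧ 1 ≤ M X Y G K α β p q := by
  classical
  have h1 : Reach X Y G α β 1 p q := ⟨[], Zig.base p q h, rfl⟩
  constructor
  · exact Nat.findGreatest_spec (P := fun m => Reach X Y G α β m p q) hK1 h1
  · exact Nat.le_findGreatest hK1 h1

lemma M_le {K : ℕ} {p q : V} : M X Y G K α β p q ≤ K := by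
  classical
  exact Nat.findGreatest_le K

lemma M_step {K : ℕ} (hK1 : 1 ≤ K) (hK : ∀ α β L, Zig X Y G α β L → L.length ≤ K + 1)
    {p q r : V} (h : G.Adj p q) (h1 : G.Adj q r) (h2 : QuadraticBound.T X Y α β p q r) :
    M X Y G K α β p q + 1 ≤ M X Y G K α β q r := by
  obtain ⟨⟨t, ht, ht'⟩, -⟩ := reach_M (X := X) (Y := Y) (G := G) (α := α) (β := β) hK1 h
  apply le_M hK
  refine ⟨p :: t, Zig.step p q r t ht h1 h2, ?_⟩
  rw [List.length_cons, ht']

/-- Label of the edge `u w` (`u` left, `w` right) for arrival at the right endpoint. -/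
noncomputable def la (X Y : V → ℝ) (G : SimpleGraph V) (K : ℕ) (α β : Bool) (u w : V) : ℕ :=
  (M X Y G K α β u w - 1) / 2

/-- Label of the edge `u w` (`u` left, `w` right) for arrival at the left endpoint. -/
noncomputable def lb (X Y : V → ℝ) (G : SimpleGraph V) (K : ℕ) (α β : Bool) (u w : V) : ℕ :=
  M X Y G K α β w u / 2

lemma cr_swap (X Y : V → ℝ) (u w z : V) : cr X Y u z w = - cr X Y u w z := by
  unfold cr; ring

lemma cr_swap' (X Y : V → ℝ) (u w z : V) : cr X Y z w u = - cr X Y u w z := by
  unfold cr; ring

/-- the edges, oriented from left to right -/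
noncomputable def edges [Fintype V] (X : V → ℝ) (G : SimpleGraph V) : Finset (V × V) := by
  classical exact Finset.univ.filter (fun e => G.Adj e.1 e.2 ∧ X e.1 < X e.2)

lemma left_move {K : ℕ} (hK1 : 1 ≤ K) (hK : ∀ α β L, Zig X Y G α β L → L.length ≤ K + 1)
    (hX : Function.Injective X) {u w w' : V} (h : G.Adj u w) (h' : G.Adj u w')
    (hx : X u < X w) (hx' : X u < X w') (hww : w ≠ w') (hcr : 0 < cr X Y u w w') :
    ∃ β : Bool, ∀ α : Bool, lb X Y G K α β u w ≤ la X Y G K α β u w' := by
  have hne : X w ≠ X w' := fun h => hww (hX h)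
  have : ∃ β, dir β (X w) (X w') := by
    rcases lt_or_gt_of_ne hne with h | h
    · exact ⟨true, by simpa [dir] using h⟩
    · exact ⟨false, by simpa [dir] using h⟩
  obtain ⟨β, hβ⟩ := this
  refine ⟨β, fun α => ?_⟩
  have hT : QuadraticBound.T X Y α β w u w' := Or.inr ⟨hx, hx', hcr, hβ⟩
  have := M_step hK1 hK h.symm h' hT
  unfold la lb
  omega

lemma right_move {K : ℕ} (hK1 : 1 ≤ K) (hK : ∀ α β L, Zig X Y G α β L → L.length ≤ K + 1)
    (hX : Function.Injective X) {u u' w : V} (h : G.Adj u w) (h' : G.Adj u' w)
    (hx : X u < X w) (hx' : X u' < X w) (huu : u ≠ u') (hcr : 0 < cr X Y u w u') :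
    ∃ α : Bool, ∀ β : Bool, la X Y G K α β u w + 1 ≤ lb X Y G K α β u' w := by
  have hne : X u ≠ X u' := fun h => huu (hX h)
  have : ∃ α, dir α (X u) (X u') := by
    rcases lt_or_gt_of_ne hne with h | h
    · exact ⟨true, by simpa [dir] using h⟩
    · exact ⟨false, by simpa [dir] using h⟩
  obtain ⟨α, hα⟩ := this
  refine ⟨α, fun β => ?_⟩
  have hT : QuadraticBound.T X Y α β u w u' := Or.inl ⟨hx, hx', hcr, hα⟩
  have := M_step hK1 hK h h'.symm hT
  have h1 := (reach_M (X := X) (Y := Y) (G := G) (α := α) (β := β) hK1 h).2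
  unfold la lb
  omega

lemma card_edges_le [Fintype V] {k : ℕ} (hk : 2 ≤ k)
    (hK : ∀ α β L, Zig X Y G α β L → L.length < 2 * k)
    (hX : Function.Injective X)
    (hcr : ∀ u w z : V, u ≠ w → w ≠ z → u ≠ z → cr X Y u w z ≠ 0) :
    (edges X G).card ≤ 6 * (k - 1) ^ 2 * Fintype.card V := by
  classical
  set K : ℕ := 2 * k - 2 with hKdef
  have hK1 : 1 ≤ K := by omega
  have hK' : ∀ α β L, Zig X Y G α β L → L.length ≤ K + 1 := by
    intro α β L h
    have := hK α β L h
    omega
  have hla : ∀ α β u w, la X Y G K α β u w < k - 1 := by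
    intro α β u w
    have := M_le (X := X) (Y := Y) (G := G) (α := α) (β := β) (K := K) (p := u) (q := w)
    unfold la
    omega
  -- the six families
  let F : Bool → Bool → Finset (V × V) := fun a b => (edges X G).filter (fun e =>
    la X Y G K a true e.1 e.2 < lb X Y G K a true e.1 e.2 ∧
    la X Y G K b false e.1 e.2 < lb X Y G K b false e.1 e.2)
  let H : Bool → Finset (V × V) := fun b => (edges X G).filter (fun e =>
    ∀ a, lb X Y G K a b e.1 e.2 ≤ la X Y G K a b e.1 e.2)
  have hedge : ∀ e ∈ edges X G, G.Adj e.1 e.2 ∧ X e.1 < X e.2 := by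
    intro e he
    simpa [edges] using he
  have hF : ∀ a b, (F a b).card ≤ (k - 1) ^ 2 * Fintype.card V := by
    intro a b
    have : (F a b).card ≤ ((Finset.univ : Finset V) ×ˢ (Finset.range (k - 1) ×ˢ
        Finset.range (k - 1))).card := by
      apply Finset.card_le_card_of_injOn (fun e => (e.1, la X Y G K a true e.1 e.2,
        la X Y G K b false e.1 e.2))
      · intro e _
        simp only [Finset.coe_product, Finset.coe_univ, Set.mem_prod, Set.mem_univ, true_and,
          Finset.coe_range, Set.mem_Iio]
        exact ⟨hla _ _ _ _, hla _ _ _ _⟩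
      · intro e he e' he' hee
        simp only [F, Finset.coe_filter, Set.mem_ofPred_eq] at he he'
        obtain ⟨he0, he1, he2⟩ := he
        obtain ⟨he0', he1', he2'⟩ := he'
        obtain ⟨u, w⟩ := e
        obtain ⟨u', w'⟩ := e'
        simp only [Prod.mk.injEq] at hee he1 he2 he1' he2'
        obtain ⟨hu, h1, h2⟩ := hee
        subst hu
        by_contra hne
        have hww : w ≠ w' := fun h => hne (by rw [h])
        have g1 : G.Adj u w ∧ X u < X w := hedge _ he0
        have g2 : G.Adj u w' ∧ X u < X w' := hedge _ he0'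
        have hc := hcr u w w' g1.1.ne hww g2.1.ne
        rcases lt_or_gt_of_ne hc with hc | hc
        · have hc' : 0 < cr X Y u w' w := by rw [cr_swap]; linarith
          obtain ⟨β, hβ⟩ := left_move hK1 hK' hX g2.1 g1.1 g2.2 g1.2 hww.symm hc'
          cases β
          · have := hβ b
            omega
          · have := hβ a
            omega
        · obtain ⟨β, hβ⟩ := left_move hK1 hK' hX g1.1 g2.1 g1.2 g2.2 hww hc
          cases β
          · have := hβ b
            omega
          · have := hβ a
            omega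
    refine this.trans (le_of_eq ?_)
    simp only [Finset.card_product, Finset.card_univ, Finset.card_range]
    ring
  have hH : ∀ b, (H b).card ≤ (k - 1) ^ 2 * Fintype.card V := by
    intro b
    have : (H b).card ≤ ((Finset.univ : Finset V) ×ˢ (Finset.range (k - 1) ×ˢ
        Finset.range (k - 1))).card := by
      apply Finset.card_le_card_of_injOn (fun e => (e.2, lb X Y G K true b e.1 e.2,
        lb X Y G K false b e.1 e.2))
      · intro e he
        simp only [H, Finset.coe_filter, Set.mem_ofPred_eq] at he
        simp only [Finset.coe_product, Finset.coe_univ, Set.mem_prod, Set.mem_univ, true_and,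
          Finset.coe_range, Set.mem_Iio]
        exact ⟨lt_of_le_of_lt (he.2 true) (hla _ _ _ _), lt_of_le_of_lt (he.2 false) (hla _ _ _ _)⟩
      · intro e he e' he' hee
        simp only [H, Finset.coe_filter, Set.mem_ofPred_eq] at he he'
        obtain ⟨he0, he1⟩ := he
        obtain ⟨he0', he1'⟩ := he'
        obtain ⟨u, w⟩ := e
        obtain ⟨u', w'⟩ := e'
        simp only [Prod.mk.injEq] at hee he1 he1'
        obtain ⟨hw, h1, h2⟩ := hee
        subst hw
        by_contra hne
        have huu : u ≠ u' := fun h => hne (by rw [h])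
        have g1 : G.Adj u w ∧ X u < X w := hedge _ he0
        have g2 : G.Adj u' w ∧ X u' < X w := hedge _ he0'
        have hc := hcr u w u' g1.1.ne g2.1.ne.symm huu
        rcases lt_or_gt_of_ne hc with hc | hc
        · have hc' : 0 < cr X Y u' w u := by rw [cr_swap']; linarith
          obtain ⟨α, hα⟩ := right_move hK1 hK' hX g2.1 g1.1 g2.2 g1.2 huu.symm hc'
          have a1 := hα b
          have a2 := he1' α
          cases α <;> omega
        · obtain ⟨α, hα⟩ := right_move hK1 hK' hX g1.1 g2.1 g1.2 g2.2 huu hc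
          have a1 := hα b
          have a2 := he1 α
          cases α <;> omega
    refine this.trans (le_of_eq ?_)
    simp only [Finset.card_product, Finset.card_univ, Finset.card_range]
    ring
  have hcover : edges X G ⊆ (F true true ∪ F true false ∪ F false true ∪ F false false) ∪
      (H true ∪ H false) := by
    intro e he
    by_cases h1 : ∀ a, lb X Y G K a true e.1 e.2 ≤ la X Y G K a true e.1 e.2
    · simp only [Finset.mem_union]
      exact Or.inr (Or.inl (by simp only [H, Finset.mem_filter]; exact ⟨he, h1⟩))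
    · by_cases h2 : ∀ a, lb X Y G K a false e.1 e.2 ≤ la X Y G K a false e.1 e.2
      · simp only [Finset.mem_union]
        exact Or.inr (Or.inr (by simp only [H, Finset.mem_filter]; exact ⟨he, h2⟩))
      · push Not at h1 h2
        obtain ⟨a, ha⟩ := h1
        obtain ⟨b, hb⟩ := h2
        have : e ∈ F a b := by
          simp only [F, Finset.mem_filter]
          exact ⟨he, ha, hb⟩
        simp only [Finset.mem_union]
        cases a <;> cases b <;> tauto
  calc (edges X G).card ≤ ((F true true ∪ F true false ∪ F false true ∪ F false false) ∪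
      (H true ∪ H false)).card := Finset.card_le_card hcover
    _ ≤ (F true true).card + (F true false).card + (F false true).card + (F false false).card +
      ((H true).card + (H false).card) := by
        refine (Finset.card_union_le _ _).trans (add_le_add ?_ (Finset.card_union_le _ _))
        refine (Finset.card_union_le _ _).trans (add_le_add ?_ le_rfl)
        refine (Finset.card_union_le _ _).trans (add_le_add ?_ le_rfl)
        exact Finset.card_union_le _ _
    _ ≤ 6 * (k - 1) ^ 2 * Fintype.card V := by
        have a1 := hF true true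
        have a2 := hF true false
        have a3 := hF false true
        have a4 := hF false false
        have a5 := hH true
        have a6 := hH false
        nlinarith

end paths

section final

variable {n : ℕ} (P : Fin n → ℝ × ℝ) (G : SimpleGraph (Fin n))

/-- First coordinate after the shear with parameter `ε`. -/
def shX (ε : ℝ) (i : Fin n) : ℝ := (P i).1 + ε * (P i).2

/-- Second coordinate. -/
def shY (i : Fin n) : ℝ := (P i).2

lemma seg_E (ε : ℝ) (p q : Fin n) (hpq : shX P ε p ≠ shX P ε q) (z : ℝ × ℝ)
    (hz : z ∈ segment ℝ (P p) (P q)) :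
    min (shX P ε q) (shX P ε p) ≤ z.1 + ε * z.2 ∧ z.1 + ε * z.2 ≤ max (shX P ε q) (shX P ε p) ∧
      E (shX P ε) (shY P) q p (z.1 + ε * z.2) = z.2 := by
  obtain ⟨a, b, ha, hb, hab, rfl⟩ := hz
  simp only [Prod.fst_add, Prod.smul_fst, Prod.snd_add, Prod.smul_snd, smul_eq_mul]
  have e : a * (P p).1 + b * (P q).1 + ε * (a * (P p).2 + b * (P q).2)
      = a * shX P ε p + b * shX P ε q := by
    unfold shX; ring
  rw [e]
  refine ⟨?_, ?_, ?_⟩
  · have h1 := min_le_left (shX P ε q) (shX P ε p)
    have h2 := min_le_right (shX P ε q) (shX P ε p)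
    calc min (shX P ε q) (shX P ε p)
        = a * min (shX P ε q) (shX P ε p) + b * min (shX P ε q) (shX P ε p) := by
          rw [← add_mul, hab, one_mul]
      _ ≤ a * shX P ε p + b * shX P ε q :=
          add_le_add (mul_le_mul_of_nonneg_left h2 ha) (mul_le_mul_of_nonneg_left h1 hb)
  · have h1 := le_max_left (shX P ε q) (shX P ε p)
    have h2 := le_max_right (shX P ε q) (shX P ε p)
    calc a * shX P ε p + b * shX P ε q
        ≤ a * max (shX P ε q) (shX P ε p) + b * max (shX P ε q) (shX P ε p) :=
          add_le_add (mul_le_mul_of_nonneg_left h2 ha) (mul_le_mul_of_nonneg_left h1 hb)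
      _ = max (shX P ε q) (shX P ε p) := by rw [← add_mul, hab, one_mul]
  · unfold E shY
    have h1 : shX P ε p - shX P ε q ≠ 0 := sub_ne_zero.2 hpq
    have ha' : a = 1 - b := by linarith
    subst ha'
    field_simp
    ring

lemma zig_good (ε : ℝ) {α β : Bool} {L : List (Fin n)}
    (h : Zig (shX P ε) (shY P) G α β L) (d : Fin n) :
    (∀ i j, i < L.length → j < L.length → L.getD i d = L.getD j d → i = j) ∧
    (∀ i, i + 1 < L.length → G.Adj (L.getD i d) (L.getD (i + 1) d)) ∧
    (∀ i j, i + 1 < j → j + 1 < L.length →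
      Disjoint (segment ℝ (P (L.getD i d)) (P (L.getD (i + 1) d)))
        (segment ℝ (P (L.getD j d)) (P (L.getD (j + 1) d)))) := by
  have hT := h.T d
  have hA := h.adj d
  set f : ℕ → Fin n := fun i => L.getD i d with hf
  have hT' : ∀ i, i + 2 < L.length → T (shX P ε) (shY P) α β (f (i + 2)) (f (i + 1)) (f i) := hT
  have hab := path_above (shX P ε) (shY P) hT'
  -- the endpoints of an edge have distinct first coordinates if the path has at least two edges
  have hne : ∀ i, i + 1 < L.length → 2 < L.length → shX P ε (f (i + 1)) ≠ shX P ε (f i) := by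
    intro i hi hL
    rcases Nat.eq_zero_or_pos i with h0 | h0
    · subst h0
      exact (T_ne _ _ (hT' 0 (by omega))).2.1
    · obtain ⟨j, rfl⟩ : ∃ j, i = j + 1 := ⟨i - 1, by omega⟩
      exact (T_ne _ _ (hT' j (by omega))).1
  have hdist : ∀ i j, i < j → j < L.length → f i ≠ f j := by
    intro i j hij hj heq
    rcases Nat.lt_or_ge j (i + 2) with h1 | h1
    · have : j = i + 1 := by omega
      subst this
      exact (hA i hj).ne heq
    · rcases Nat.lt_or_ge j (i + 3) with h2 | h2
      · have : j = i + 2 := by omega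
        subst this
        have := (T_ne _ _ (hT' i hj)).2.2
        rw [heq] at this
        exact this rfl
      · obtain ⟨e, rfl⟩ : ∃ e, j = i + e + 1 := ⟨j - i - 1, by omega⟩
        have hx : shX P ε (f (i + e + 1)) = shX P ε (f i) := by rw [heq]
        have := (hab e i (by omega) (shX P ε (f i)) (min_le_right _ _) (le_max_right _ _)
          (by rw [← hx]; exact min_le_left _ _) (by rw [← hx]; exact le_max_left _ _)).2 (by omega)
        rw [E_self] at this
        rw [← hx, E_comm _ _ (hne (i + e) (by omega) (by omega)), E_self, heq] at this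
        exact lt_irrefl _ this
  refine ⟨?_, hA, ?_⟩
  · intro i j hi hj heq
    by_contra hne'
    rcases lt_or_gt_of_ne hne' with h1 | h1
    · exact hdist i j h1 hj heq
    · exact hdist j i h1 hi heq.symm
  · intro i j hij hj
    rw [Set.disjoint_left]
    intro z hz hz'
    obtain ⟨a1, a2, a3⟩ := seg_E P ε (f i) (f (i + 1)) (hne i (by omega) (by omega)).symm z hz
    obtain ⟨b1, b2, b3⟩ := seg_E P ε (f j) (f (j + 1)) (hne j (by omega) (by omega)).symm z hz'
    obtain ⟨e, rfl⟩ : ∃ e, j = i + e := ⟨j - i, by omega⟩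
    have := (hab e i (by omega) _ a1 a2 b1 b2).2 (by omega)
    rw [a3, b3] at this
    exact lt_irrefl _ this

lemma exists_shear (hP : Function.Injective P) : ∃ ε : ℝ, Function.Injective (shX P ε) := by
  classical
  let B : Finset ℝ := (Finset.univ : Finset (Fin n × Fin n)).image
    (fun e => -((P e.1).1 - (P e.2).1) / ((P e.1).2 - (P e.2).2))
  obtain ⟨ε, hε⟩ := Infinite.exists_notMem_finset B
  refine ⟨ε, fun i j hij => ?_⟩
  by_contra hne
  unfold shX at hij
  by_cases hy : (P i).2 = (P j).2
  · apply hne
    apply hP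
    apply Prod.ext
    · rw [hy] at hij
      linarith
    · exact hy
  · apply hε
    simp only [B, Finset.mem_image, Finset.mem_univ, true_and]
    refine ⟨(i, j), ?_⟩
    have h1 : (P i).2 - (P j).2 ≠ 0 := sub_ne_zero.2 hy
    rw [div_eq_iff h1]
    linarith

lemma cr_ne (ε : ℝ) (hP : Function.Injective P)
    (hcol : ∀ a b c : Fin n, a ≠ b → b ≠ c → a ≠ c →
      ¬ Collinear ℝ ({P a, P b, P c} : Set (ℝ × ℝ)))
    (u w z : Fin n) (h1 : u ≠ w) (h2 : w ≠ z) (h3 : u ≠ z) :
    cr (shX P ε) (shY P) u w z ≠ 0 := by
  intro h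
  apply hcol u w z h1 h2 h3
  have hdet : ((P w).1 - (P u).1) * ((P z).2 - (P u).2)
      - ((P w).2 - (P u).2) * ((P z).1 - (P u).1) = 0 := by
    rw [← h]; unfold cr shX shY; ring
  rw [collinear_iff_of_mem (p₀ := P u) (by simp)]
  refine ⟨P w - P u, ?_⟩
  intro p hp
  simp only [Set.mem_insert_iff, Set.mem_singleton_iff] at hp
  rcases hp with rfl | rfl | rfl
  · exact ⟨0, by simp⟩
  · exact ⟨1, by simp⟩
  · have hne : P w ≠ P u := fun h => h1 (hP h).symm
    by_cases hx : (P w).1 = (P u).1
    · have hy : (P w).2 - (P u).2 ≠ 0 := by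
        intro h
        exact hne (Prod.ext hx (by linarith))
      refine ⟨((P z).2 - (P u).2) / ((P w).2 - (P u).2), ?_⟩
      have hz : (P z).1 = (P u).1 := by
        have : ((P w).2 - (P u).2) * ((P z).1 - (P u).1) = 0 := by
          rw [hx] at hdet; linarith
        rcases mul_eq_zero.1 this with h | h
        · exact absurd h hy
        · linarith
      apply Prod.ext
      · simp only [vadd_eq_add, Prod.fst_add, Prod.smul_fst, Prod.fst_sub, smul_eq_mul, hx, hz]
        ring
      · simp only [vadd_eq_add, Prod.snd_add, Prod.smul_snd, Prod.snd_sub, smul_eq_mul]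
        field_simp
        ring
    · have hx' : (P w).1 - (P u).1 ≠ 0 := sub_ne_zero.2 hx
      refine ⟨((P z).1 - (P u).1) / ((P w).1 - (P u).1), ?_⟩
      apply Prod.ext
      · simp only [vadd_eq_add, Prod.fst_add, Prod.smul_fst, Prod.fst_sub, smul_eq_mul]
        field_simp
        ring
      · simp only [vadd_eq_add, Prod.snd_add, Prod.smul_snd, Prod.snd_sub, smul_eq_mul]
        field_simp
        linarith

/-- Every geometric graph with `n` vertices and more than `6 (k-1)^2 n` edges contains a
noncrossing path with `2k - 1` edges. -/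
theorem result : ∀ (n k : ℕ) (P : Fin n → ℝ × ℝ) (G : SimpleGraph (Fin n)),
    1 ≤ k →
    Function.Injective P →
    (∀ a b c : Fin n, a ≠ b → b ≠ c → a ≠ c →
      ¬ Collinear ℝ ({P a, P b, P c} : Set (ℝ × ℝ))) →
    6 * (k - 1) ^ 2 * n < G.edgeSet.ncard →
    ∃ f : ℕ → Fin n,
      (∀ i j : ℕ, i < 2 * k → j < 2 * k → f i = f j → i = j) ∧
      (∀ i : ℕ, i + 1 < 2 * k → G.Adj (f i) (f (i + 1))) ∧
      (∀ i j : ℕ, i + 1 < j → j + 1 < 2 * k →
        Disjoint (segment ℝ (P (f i)) (P (f (i + 1))))
                 (segment ℝ (P (f j)) (P (f (j + 1))))) := by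
  classical
  intro n k P G hk hP hcol hE
  rcases Nat.lt_or_ge k 2 with hk2 | hk2
  · -- `k = 1`
    have hk1 : k = 1 := by omega
    subst hk1
    have hne : G.edgeSet.Nonempty := by
      by_contra h
      rw [Set.not_nonempty_iff_eq_empty] at h
      rw [h] at hE
      simp at hE
    obtain ⟨e, he⟩ := hne
    induction e using Sym2.ind with
    | _ u w =>
      rw [SimpleGraph.mem_edgeSet] at he
      refine ⟨fun i => if i = 0 then u else w, ?_, ?_, ?_⟩
      · intro i j hi hj hij
        by_contra hne
        have : (i = 0 ∧ j = 1) ∨ (i = 1 ∧ j = 0) := by omega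
        rcases this with ⟨rfl, rfl⟩ | ⟨rfl, rfl⟩
        · simp only [if_true] at hij
          exact he.ne hij
        · simp only [if_true] at hij
          exact he.ne hij.symm
      · intro i hi
        have : i = 0 := by omega
        subst this
        simpa using he
      · intro i j hi hj
        omega
  · by_contra hcon
    obtain ⟨ε, hX⟩ := exists_shear P hP
    have hK : ∀ α β L, Zig (shX P ε) (shY P) G α β L → L.length < 2 * k := by
      intro α β L h
      by_contra hL
      push Not at hL
      apply hcon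
      have hd : 0 < L.length := by omega
      obtain ⟨g1, g2, g3⟩ := zig_good P G ε h (L.get ⟨0, hd⟩)
      refine ⟨fun i => L.getD i (L.get ⟨0, hd⟩), ?_, ?_, ?_⟩
      · intro i j hi hj hij
        exact g1 i j (by omega) (by omega) hij
      · intro i hi
        exact g2 i (by omega)
      · intro i j hi hj
        exact g3 i j hi (by omega)
    have hcard := card_edges_le (G := G) hk2 hK hX (cr_ne P ε hP hcol)
    have hsub : G.edgeSet ⊆
        (((edges (shX P ε) G).image (fun e => s(e.1, e.2)) : Finset (Sym2 (Fin n))) :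
          Set (Sym2 (Fin n))) := by
      intro e he
      induction e using Sym2.ind with
      | _ u w =>
        rw [SimpleGraph.mem_edgeSet] at he
        have hxne : shX P ε u ≠ shX P ε w := fun h => he.ne (hX h)
        simp only [Finset.coe_image, Set.mem_image, Finset.mem_coe]
        rcases lt_or_gt_of_ne hxne with h | h
        · exact ⟨(u, w), by simp [edges, he, h], rfl⟩
        · exact ⟨(w, u), by simp [edges, he.symm, h], Sym2.eq_swap⟩
    have h1 : G.edgeSet.ncard ≤ (edges (shX P ε) G).card := by
      calc G.edgeSet.ncard ≤ _ := Set.ncard_le_ncard hsub (Finset.finite_toSet _)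
        _ = ((edges (shX P ε) G).image (fun e => s(e.1, e.2))).card := Set.ncard_coe_finset _
        _ ≤ _ := Finset.card_image_le
    rw [Fintype.card_fin] at hcard
    omega

end final

end Pool.Agent.Results.MP_832c97_co.QuadraticBound
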